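import Mathlib

/-! Project HR: infinitesimal simple-curve rigidity fails for genus-2 Hitchin components, n = 4
(problem MP_dd334f_gt). Definitions. -/

namespace P8H97.HR

open Matrix

/-- real 2x2 and 4x4 matrices, `SL(2,R)` and `SL(4,R)` -/
abbrev M2 := Matrix (Fin 2) (Fin 2) ℝ
abbrev M4 := Matrix (Fin 4) (Fin 4) ℝ
abbrev SL2 := Matrix.SpecialLinearGroup (Fin 2) ℝ
abbrev SL4 := Matrix.SpecialLinearGroup (Fin 4) ℝ

/-! ### The surface group of genus 2 and its simple closed curves -/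

/-- the relator `[a1,b1][a2,b2]` on the letters `a1 = 0, b1 = 1, a2 = 2, b2 = 3` -/
def rel : FreeGroup (Fin 4) :=
  FreeGroup.of 0 * FreeGroup.of 1 * (FreeGroup.of 0)⁻¹ * (FreeGroup.of 1)⁻¹ *
    (FreeGroup.of 2 * FreeGroup.of 3 * (FreeGroup.of 2)⁻¹ * (FreeGroup.of 3)⁻¹)

/-- the fundamental group of the closed orientable surface of genus 2 -/
abbrev Surf : Type := PresentedGroup ({rel} : Set (FreeGroup (Fin 4)))

/-- the standard generators `a1, b1, a2, b2` -/
def gen (i : Fin 4) : Surf := PresentedGroup.of i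

theorem surf_rel : gen 0 * gen 1 * (gen 0)⁻¹ * (gen 1)⁻¹ *
    (gen 2 * gen 3 * (gen 2)⁻¹ * (gen 3)⁻¹) = 1 := by
  have h : PresentedGroup.mk ({rel} : Set (FreeGroup (Fin 4))) rel = 1 :=
    PresentedGroup.one_of_mem (Set.mem_singleton rel)
  exact h

/-- images of `a1, b1, a2, b2` under the `e`-th power of the `i`-th Dehn twist of the chain of
five curves `a1, b1, a1⁻¹b2, a2, b2` (in the order of the chain: consecutive curves meet once) -/
def twistImg (e : ℤ) : Fin 5 → Fin 4 → Surf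
  | 0 => ![gen 0, gen 1 * gen 0 ^ (-e), gen 2, gen 3]
  | 1 => ![gen 0 * gen 1 ^ e, gen 1, gen 2, gen 3]
  | 2 => ![gen 0, ((gen 0)⁻¹ * gen 3) ^ e * gen 1, ((gen 0)⁻¹ * gen 3) ^ e * gen 2, gen 3]
  | 3 => ![gen 0, gen 1, gen 2, gen 3 * gen 2 ^ (-e)]
  | 4 => ![gen 0, gen 1, gen 2 * gen 3 ^ e, gen 3]

theorem twist_rel (e : ℤ) (i : Fin 5) :
    ∀ r ∈ ({rel} : Set (FreeGroup (Fin 4))), FreeGroup.lift (twistImg e i) r = 1 := by
  intro r hr
  rw [Set.mem_singleton_iff] at hr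
  subst hr
  have h := surf_rel
  fin_cases i
  · simp only [rel, map_mul, map_inv, FreeGroup.lift_apply_of, twistImg]
    simp only [Matrix.cons_val]
    calc _ = gen 0 * gen 1 * (gen 0)⁻¹ * (gen 1)⁻¹ * (gen 2 * gen 3 * (gen 2)⁻¹ * (gen 3)⁻¹) := by
          group
      _ = 1 := h
  · simp only [rel, map_mul, map_inv, FreeGroup.lift_apply_of, twistImg]
    simp only [Matrix.cons_val]
    calc _ = gen 0 * gen 1 * (gen 0)⁻¹ * (gen 1)⁻¹ * (gen 2 * gen 3 * (gen 2)⁻¹ * (gen 3)⁻¹) := by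
          group
      _ = 1 := h
  · simp only [rel, map_mul, map_inv, FreeGroup.lift_apply_of, twistImg]
    simp only [Matrix.cons_val]
    have h2 : gen 1 * (gen 0)⁻¹ * (gen 1)⁻¹ * (gen 2 * gen 3 * (gen 2)⁻¹) =
        (gen 0)⁻¹ * gen 3 := by
      have := congrArg (fun x => (gen 0)⁻¹ * x * gen 3) h
      simpa [mul_assoc] using this
    calc _ = gen 0 * ((gen 0)⁻¹ * gen 3) ^ e *
          (gen 1 * (gen 0)⁻¹ * (gen 1)⁻¹ * (gen 2 * gen 3 * (gen 2)⁻¹)) *
          (((gen 0)⁻¹ * gen 3) ^ e)⁻¹ * (gen 3)⁻¹ := by group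
      _ = gen 0 * ((gen 0)⁻¹ * gen 3) ^ e * ((gen 0)⁻¹ * gen 3) *
          (((gen 0)⁻¹ * gen 3) ^ e)⁻¹ * (gen 3)⁻¹ := by rw [h2]
      _ = 1 := by
          rw [mul_assoc (gen 0) _ ((gen 0)⁻¹ * gen 3), ← (Commute.refl _).zpow_right e |>.eq]
          group
  · simp only [rel, map_mul, map_inv, FreeGroup.lift_apply_of, twistImg]
    simp only [Matrix.cons_val]
    calc _ = gen 0 * gen 1 * (gen 0)⁻¹ * (gen 1)⁻¹ * (gen 2 * gen 3 * (gen 2)⁻¹ * (gen 3)⁻¹) := by
          group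
      _ = 1 := h
  · simp only [rel, map_mul, map_inv, FreeGroup.lift_apply_of, twistImg]
    simp only [Matrix.cons_val]
    calc _ = gen 0 * gen 1 * (gen 0)⁻¹ * (gen 1)⁻¹ * (gen 2 * gen 3 * (gen 2)⁻¹ * (gen 3)⁻¹) := by
          group
      _ = 1 := h

/-- the `e`-th power of the `i`-th Dehn twist; these five twists (Humphries generators) generate
the mapping class group of the surface of genus 2 -/
def twist (i : Fin 5) (e : ℤ) : Surf →* Surf := PresentedGroup.toGroup (twist_rel e i)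

/-- the elements of the surface group that are represented by simple closed curves: `1`, and the
orbits of `a1` (non-separating curves) and of `[a1,b1]` (separating curves) under conjugations
and Dehn twists -/
inductive Simple : Surf → Prop
  | one : Simple 1
  | nonsep : Simple (gen 0)
  | sep : Simple (gen 0 * gen 1 * (gen 0)⁻¹ * (gen 1)⁻¹)
  | conj (γ h : Surf) : Simple γ → Simple (h * γ * h⁻¹)
  | twist (i : Fin 5) (e : ℤ) (γ : Surf) : Simple γ → Simple (twist i e γ)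

/-! ### The irreducible representation of `SL(2,R)` in dimension 4 -/

/-- the action `X ↦ aX + cY, Y ↦ bX + dY` of the matrix `(a b; c d)` on binary cubic forms, in the
basis `X³, X²Y, XY², Y³` -/
def sym3 (A : M2) : M4 :=
  !![A 0 0 ^ 3, A 0 0 ^ 2 * A 0 1, A 0 0 * A 0 1 ^ 2, A 0 1 ^ 3;
     3 * A 0 0 ^ 2 * A 1 0, A 0 0 ^ 2 * A 1 1 + 2 * A 0 0 * A 0 1 * A 1 0,
       2 * A 0 0 * A 0 1 * A 1 1 + A 0 1 ^ 2 * A 1 0, 3 * A 0 1 ^ 2 * A 1 1;
     3 * A 0 0 * A 1 0 ^ 2, 2 * A 0 0 * A 1 0 * A 1 1 + A 0 1 * A 1 0 ^ 2,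
       A 0 0 * A 1 1 ^ 2 + 2 * A 0 1 * A 1 0 * A 1 1, 3 * A 0 1 * A 1 1 ^ 2;
     A 1 0 ^ 3, A 1 0 ^ 2 * A 1 1, A 1 0 * A 1 1 ^ 2, A 1 1 ^ 3]

/-- the invariant symplectic form -/
def Om : M4 := !![0, 0, 0, 3; 0, 0, -1, 0; 0, 1, 0, 0; -3, 0, 0, 0]

theorem sym3_one : sym3 1 = 1 := by
  ext i j
  fin_cases i <;> fin_cases j <;> simp [sym3]

theorem sym3_mul (A B : M2) : sym3 (A * B) = sym3 A * sym3 B := by
  ext i j
  fin_cases i <;> fin_cases j <;>
    simp [sym3, Matrix.mul_apply, Fin.sum_univ_succ] <;> ring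

theorem sym3_smul (s : ℝ) (A : M2) : sym3 (s • A) = s ^ 3 • sym3 A := by
  ext i j
  fin_cases i <;> fin_cases j <;> simp [sym3] <;> ring

theorem sym3_Om (A : M2) : (sym3 A)ᵀ * Om * sym3 A = A.det ^ 3 • Om := by
  ext i j
  fin_cases i <;> fin_cases j <;>
    simp [sym3, Om, Matrix.mul_apply, Fin.sum_univ_succ, Matrix.det_fin_two] <;> ring

theorem sym3_det (A : M2) : (sym3 A).det = A.det ^ 6 := by
  simp [sym3, Matrix.det_succ_row_zero, Fin.sum_univ_succ, Fin.succAbove]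
  ring

/-- the irreducible representation `SL(2,R) → SL(4,R)` -/
def sym3Hom : SL2 →* SL4 where
  toFun A := ⟨sym3 A, by rw [sym3_det, A.2, one_pow]⟩
  map_one' := Subtype.ext (by simp [sym3_one])
  map_mul' A B := Subtype.ext (sym3_mul A.1 B.1)

/-- the Lie algebra of the symplectic group of `Om` -/
def sp : Submodule ℝ M4 where
  carrier := {X | Xᵀ * Om + Om * X = 0}
  add_mem' {X Y} hX hY := by
    simp only [Set.mem_ofPred_eq] at *
    rw [Matrix.transpose_add, Matrix.add_mul, Matrix.mul_add, add_add_add_comm, hX, hY, add_zero]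
  zero_mem' := by simp
  smul_mem' s X hX := by
    simp only [Set.mem_ofPred_eq] at *
    rw [Matrix.transpose_smul, Matrix.smul_mul, Matrix.mul_smul, ← smul_add, hX, smul_zero]

/-- the matrices in `sp` that commute with `J` -/
def spc (J : M4) : Submodule ℝ M4 where
  carrier := {X | X ∈ sp ∧ J * X = X * J}
  add_mem' {X Y} hX hY := ⟨sp.add_mem hX.1 hY.1, by rw [Matrix.mul_add, Matrix.add_mul, hX.2, hY.2]⟩
  zero_mem' := ⟨sp.zero_mem, by simp⟩
  smul_mem' s X hX := ⟨sp.smul_mem s hX.1, by rw [Matrix.mul_smul, Matrix.smul_mul, hX.2]⟩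

/-! ### Differentiable class functions -/

/-- A differentiable class function on `SL(4,R)` (in particular any differentiable class function
on `PSL(4,R)` read on `SL(4,R)`): invariant under conjugation, and near every point the
restriction of a function on the matrix space which is differentiable at that point. -/
structure DiffClass (f : SL4 → ℝ) : Prop where
  conj : ∀ g h : SL4, f (h * g * h⁻¹) = f g
  diff : ∀ g : SL4, ∃ F : (Fin 4 → Fin 4 → ℝ) → ℝ,
    DifferentiableAt ℝ F (fun i j => (g : M4) i j) ∧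
      ∀ h : SL4, F (fun i j => (h : M4) i j) = f h

end P8H97.HR
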