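import Pool.Agent.P8H97.HR.PartG
import Pool.Agent.P8H63.HR.B
import Pool.Agent.P8H63.HR.K
import Pool.Agent.P8H86.HR.PartA
import Pool.Agent.P8H86.HR.PartC
import Pool.Agent.P8H90.HR.E
import Pool.Agent.P8H72.HR.F

/-! Project HR: the final theorem. -/

namespace P8H97.HR

open Matrix

theorem final : S_Final :=
  part_G part_A
    (part_D Pool.Agent.P8H63.HR.part_B2 Pool.Agent.P8H63.HR.part_B3 Pool.Agent.P8H63.HR.part_B4)
    Pool.Agent.P8H63.HR.part_K5 Pool.Agent.P8H63.HR.part_K6 part_E P8H72.HRF.part_F part_C part_N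

end P8H97.HR
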