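import Pool.Agent.P8H97.HR.Stm

/-! Project HR, package D: an anti-invariant cocycle which is not a coboundary. -/

namespace P8H97.HR

open Matrix

/-- conjugation by `J` -/
noncomputable def Ad (J : M4) : M4 →ₗ[ℝ] M4 where
  toFun X := J * X * J⁻¹
  map_add' X Y := by rw [Matrix.mul_add, Matrix.add_mul]
  map_smul' s X := by
    rw [Matrix.mul_smul, Matrix.smul_mul, RingHom.id_apply]

theorem Ad_apply (J X : M4) : Ad J X = J * X * J⁻¹ := rfl

theorem Ad_inj {J : M4} (hJ : J.det ≠ 0) : Function.Injective (Ad J) := by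
  intro X Y h
  have hu : IsUnit J.det := isUnit_iff_ne_zero.mpr hJ
  rw [Ad_apply, Ad_apply] at h
  have h1 := congrArg (fun Z => J⁻¹ * Z * J) h
  simp only [Matrix.mul_assoc, Matrix.nonsing_inv_mul _ hu, Matrix.mul_one] at h1
  rwa [← Matrix.mul_assoc, ← Matrix.mul_assoc, Matrix.nonsing_inv_mul _ hu, Matrix.one_mul,
    Matrix.one_mul] at h1

theorem Om_det : Om.det ≠ 0 := by
  simp [Om, Matrix.det_succ_row_zero, Fin.sum_univ_succ, Fin.succAbove]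

/-- conjugation by a symplectic similitude preserves `sp` -/
theorem Ad_mem_sp {A : M2} (hA : A.det ≠ 0) {X : M4} (hX : X ∈ sp) : Ad (sym3 A) X ∈ sp := by
  have hJ : (sym3 A).det ≠ 0 := by rw [sym3_det]; exact pow_ne_zero _ hA
  have hu : IsUnit (sym3 A).det := isUnit_iff_ne_zero.mpr hJ
  have hO := sym3_Om A
  have hX' : Xᵀ * Om + Om * X = 0 := hX
  change (Ad (sym3 A) X)ᵀ * Om + Om * Ad (sym3 A) X = 0
  rw [Ad_apply]
  set J := sym3 A with hJdef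
  have hut : IsUnit Jᵀ.det := by rw [Matrix.det_transpose]; exact hu
  -- multiply by Jᵀ on the left and J on the right
  have key : Jᵀ * ((J * X * J⁻¹)ᵀ * Om + Om * (J * X * J⁻¹)) * J = 0 := by
    have e1 : Jᵀ * (J * X * J⁻¹)ᵀ = Xᵀ * Jᵀ := by
      rw [← Matrix.transpose_mul, Matrix.mul_assoc (J * X), Matrix.nonsing_inv_mul _ hu,
        Matrix.mul_one, Matrix.transpose_mul]
    have e2 : (J * X * J⁻¹) * J = J * X := by
      rw [Matrix.mul_assoc (J * X), Matrix.nonsing_inv_mul _ hu, Matrix.mul_one]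
    calc Jᵀ * ((J * X * J⁻¹)ᵀ * Om + Om * (J * X * J⁻¹)) * J
        = (Jᵀ * (J * X * J⁻¹)ᵀ) * Om * J + Jᵀ * Om * ((J * X * J⁻¹) * J) := by
          simp only [Matrix.mul_add, Matrix.add_mul, Matrix.mul_assoc]
      _ = Xᵀ * (Jᵀ * Om * J) + (Jᵀ * Om * J) * X := by
          rw [e1, e2]; simp only [Matrix.mul_assoc]
      _ = 0 := by
          rw [hO, Matrix.mul_smul, Matrix.smul_mul, ← smul_add, hX', smul_zero]
  have h1 := congrArg (fun Z => (Jᵀ)⁻¹ * Z * J⁻¹) key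
  simp only [Matrix.mul_zero, Matrix.zero_mul] at h1
  rw [Matrix.mul_assoc Jᵀ, Matrix.nonsing_inv_mul_cancel_left _ _ hut,
    Matrix.mul_assoc _ J, Matrix.mul_nonsing_inv _ hu, Matrix.mul_one] at h1
  exact h1

theorem traceless_sq {C : M2} (h : C.trace = 0) : C * C = (-C.det) • (1 : M2) := by
  rw [Matrix.trace_fin_two] at h
  have h' : C 1 1 = -C 0 0 := by linarith
  ext i j
  fin_cases i <;> fin_cases j <;>
    simp [Matrix.mul_apply, Fin.sum_univ_succ, Matrix.det_fin_two, h'] <;> ring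

theorem Ad_scalar {c : ℝ} (hc : c ≠ 0) (X : M4) : Ad (c • (1 : M4)) X = X := by
  have : (c • (1 : M4))⁻¹ = c⁻¹ • (1 : M4) := by
    apply Matrix.inv_eq_right_inv
    rw [Matrix.smul_mul, Matrix.one_mul, smul_smul, mul_inv_cancel₀ hc, one_smul]
  rw [Ad_apply, this, Matrix.smul_mul, Matrix.one_mul, Matrix.mul_smul, Matrix.mul_one,
    smul_smul, inv_mul_cancel₀ hc, one_smul]

theorem Ad_mul (J K X : M4) : Ad (J * K) X = Ad J (Ad K X) := by
  simp only [Ad_apply, Matrix.mul_inv_rev, Matrix.mul_assoc]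

theorem Ad_smul {c : ℝ} (hc : c ≠ 0) (J X : M4) : Ad (c • J) X = Ad J X := by
  have : c • J = (c • (1 : M4)) * J := by rw [Matrix.smul_mul, Matrix.one_mul]
  rw [this, Ad_mul, Ad_scalar hc]

theorem Ad_sq {C : M2} (h : C.trace = 0) (hd : C.det ≠ 0) (X : M4) :
    Ad (sym3 C) (Ad (sym3 C) X) = X := by
  rw [← Ad_mul, ← sym3_mul, traceless_sq h, sym3_smul, sym3_one]
  exact Ad_scalar (pow_ne_zero _ (neg_ne_zero.mpr hd)) X

theorem Ad_fix {C : M2} (hd : C.det ≠ 0) {X : M4} (hX : X ∈ spc (sym3 C)) :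
    Ad (sym3 C) X = X := by
  have hu : IsUnit (sym3 C).det := by
    rw [sym3_det]; exact isUnit_iff_ne_zero.mpr (pow_ne_zero _ hd)
  have h2 : sym3 C * X = X * sym3 C := hX.2
  rw [Ad_apply, h2, Matrix.mul_assoc, Matrix.mul_nonsing_inv _ hu, Matrix.mul_one]

theorem dim_lemma {V W U : Type} [AddCommGroup V] [Module ℝ V] [FiniteDimensional ℝ V]
    [AddCommGroup W] [Module ℝ W] [FiniteDimensional ℝ W]
    [AddCommGroup U] [Module ℝ U] [FiniteDimensional ℝ U]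
    (L : V →ₗ[ℝ] W) (S : Submodule ℝ W) (hS : Module.finrank ℝ S ≤ 10) (hL : ∀ v, L v ∈ S)
    (R : V →ₗ[ℝ] U) (B : S →ₗ[ℝ] U) (hdim : 24 ≤ Module.finrank ℝ V)
    (hcov : ∀ v, L v = 0 → ∃ X, R v = B X) (T : Submodule ℝ W) (hT : Module.finrank ℝ T ≤ 2)
    (t : V →ₗ[ℝ] W) (ht : ∀ v, L v = 0 → R v = 0 → t v ∈ T)
    (hinj : ∀ v, L v = 0 → R v = 0 → t v = 0 → v = 0) : False := by
  have hrange : Module.finrank ℝ (LinearMap.range L) ≤ 10 := by
    refine le_trans (Submodule.finrank_mono ?_) hS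
    rintro _ ⟨w, rfl⟩
    exact hL w
  have hker : 14 ≤ Module.finrank ℝ (LinearMap.ker L) := by
    have := LinearMap.finrank_range_add_finrank_ker L
    omega
  let R' : LinearMap.ker L →ₗ[ℝ] U := R.domRestrict (LinearMap.ker L)
  have hRrange : Module.finrank ℝ (LinearMap.range R') ≤ 10 := by
    have h1 : LinearMap.range R' ≤ LinearMap.range B := by
      rintro _ ⟨w, rfl⟩
      obtain ⟨X, hX⟩ := hcov w.1 w.2
      exact ⟨X, hX.symm⟩
    refine le_trans (Submodule.finrank_mono h1) ?_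
    exact le_trans (LinearMap.finrank_range_le B) hS
  have hRker : 4 ≤ Module.finrank ℝ (LinearMap.ker R') := by
    have := LinearMap.finrank_range_add_finrank_ker R'
    omega
  let T' : LinearMap.ker R' →ₗ[ℝ] T :=
    { toFun := fun w => ⟨t w.1.1, ht w.1.1 w.1.2 w.2⟩
      map_add' := fun x y => Subtype.ext (by simp)
      map_smul' := fun c x => Subtype.ext (by simp) }
  have hT' : Function.Injective T' := by
    refine (injective_iff_map_eq_zero T').mpr ?_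
    intro w hw
    have h0 : t w.1.1 = 0 := congrArg Subtype.val hw
    exact Subtype.ext (Subtype.ext (hinj w.1.1 w.1.2 w.2 h0))
  have := LinearMap.finrank_le_finrank_of_injective hT'
  omega

section
variable (C : Fin 6 → M2)

/-- the tuples of fixed vectors -/
abbrev Wt : Type := ∀ i : Fin 6, spc (sym3 (C i))

/-- the linear form of the product relation -/
noncomputable def Lam : Wt C →ₗ[ℝ] M4 :=
  let p : ∀ i : Fin 6, Wt C →ₗ[ℝ] M4 := fun i => (spc (sym3 (C i))).subtype ∘ₗ LinearMap.proj i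
  let A : Fin 6 → (M4 →ₗ[ℝ] M4) := fun i => Ad (sym3 (C i))
  p 0 - A 0 ∘ₗ (p 1 - A 1 ∘ₗ (p 2 - A 2 ∘ₗ (p 3 - A 3 ∘ₗ (p 4 - A 4 ∘ₗ p 5))))

theorem Lam_apply (w : Wt C) : Lam C w =
    (w 0 : M4) - Ad (sym3 (C 0)) ((w 1 : M4) - Ad (sym3 (C 1)) ((w 2 : M4) -
      Ad (sym3 (C 2)) ((w 3 : M4) - Ad (sym3 (C 3)) ((w 4 : M4) - Ad (sym3 (C 4)) (w 5 : M4))))) :=
  rfl

/-- the values of the cocycle on the generators -/
noncomputable def Rv : Wt C →ₗ[ℝ] (Fin 4 → M4) :=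
  let p : ∀ i : Fin 6, Wt C →ₗ[ℝ] M4 := fun i => (spc (sym3 (C i))).subtype ∘ₗ LinearMap.proj i
  let A : Fin 6 → (M4 →ₗ[ℝ] M4) := fun i => Ad (sym3 (C i))
  LinearMap.pi ![p 0 - A 0 ∘ₗ p 1, p 2 - A 2 ∘ₗ p 1, p 3 - A 3 ∘ₗ p 4, p 5 - A 5 ∘ₗ p 4]

theorem Rv_apply (w : Wt C) : Rv C w =
    ![(w 0 : M4) - Ad (sym3 (C 0)) (w 1 : M4), (w 2 : M4) - Ad (sym3 (C 2)) (w 1 : M4),
      (w 3 : M4) - Ad (sym3 (C 3)) (w 4 : M4), (w 5 : M4) - Ad (sym3 (C 5)) (w 4 : M4)] := by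
  funext i
  fin_cases i <;> rfl

/-- the coboundary map -/
noncomputable def Bd (g : Fin 4 → M2) : sp →ₗ[ℝ] (Fin 4 → M4) :=
  LinearMap.pi fun i => sp.subtype - Ad (sym3 (g i)) ∘ₗ sp.subtype

theorem Bd_apply (g : Fin 4 → M2) (X : sp) :
    Bd g X = fun i => (X : M4) - Ad (sym3 (g i)) (X : M4) := rfl

theorem Lam_mem_sp (hC : ∀ i, (C i).trace = 0 ∧ (C i).det ≠ 0) (w : Wt C) : Lam C w ∈ sp := by
  rw [Lam_apply]
  have hw : ∀ i, (w i : M4) ∈ sp := fun i => (w i).2.1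
  have hA : ∀ i {X : M4}, X ∈ sp → Ad (sym3 (C i)) X ∈ sp := fun i X hX =>
    Ad_mem_sp (hC i).2 hX
  exact sp.sub_mem (hw 0) (hA 0 (sp.sub_mem (hw 1) (hA 1 (sp.sub_mem (hw 2) (hA 2
    (sp.sub_mem (hw 3) (hA 3 (sp.sub_mem (hw 4) (hA 4 (hw 5))))))))))

theorem exists_noncob (hB2 : S_B2) (hB3 : S_B3) (hB4 : S_B4) (g : Fin 4 → M2) (A : SL2)
    (hA : (A : M2) = g 0) (hg : 2 < |(A : M2).trace|)
    (hC : ∀ i, (C i).trace = 0 ∧ (C i).det ≠ 0) (s : ℝ) (hs : C 0 * C 1 = s • g 0) :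
    ∃ w : Wt C, Lam C w = 0 ∧ ∀ X : sp, Rv C w ≠ Bd g X := by
  by_contra hcon
  push Not at hcon
  have hdim : 24 ≤ Module.finrank ℝ (Wt C) := by
    rw [Module.finrank_pi_fintype]
    have h4 : ∀ i : Fin 6, 4 ≤ Module.finrank ℝ (spc (sym3 (C i))) := fun i =>
      hB2 (C i) (hC i).1 (hC i).2
    calc 24 = ∑ _i : Fin 6, 4 := by simp
      _ ≤ _ := Finset.sum_le_sum fun i _ => h4 i
  have hJ : ∀ i, (sym3 (C i)).det ≠ 0 := fun i => by
    rw [sym3_det]; exact pow_ne_zero _ (hC i).2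
  have hs0 : s ≠ 0 := by
    rintro rfl
    have := congrArg Matrix.det hs
    rw [zero_smul, Matrix.det_mul, Matrix.det_zero] at this
    exact mul_ne_zero (hC 0).2 (hC 1).2 this
  have hzero : ∀ w : Wt C, Rv C w = 0 →
      (w 0 : M4) = Ad (sym3 (C 0)) (w 1 : M4) ∧
      (w 2 : M4) = Ad (sym3 (C 2)) (w 1 : M4) ∧
      (w 3 : M4) = Ad (sym3 (C 3)) (w 4 : M4) ∧
      (w 5 : M4) = Ad (sym3 (C 5)) (w 4 : M4) := by
    intro w h0
    rw [Rv_apply] at h0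
    have h1 := congrFun h0 0
    have h2 := congrFun h0 1
    have h3 := congrFun h0 2
    have h4 := congrFun h0 3
    simp only [Matrix.cons_val, Pi.zero_apply] at h1 h2 h3 h4
    exact ⟨sub_eq_zero.mp h1, sub_eq_zero.mp h2, sub_eq_zero.mp h3, sub_eq_zero.mp h4⟩
  have hcomm : ∀ w : Wt C, Rv C w = 0 → (w 0 : M4) ∈ spc (sym3 (A : M2)) := by
    intro w hw
    obtain ⟨h1, -, -, -⟩ := hzero w hw
    refine ⟨(w 0).2.1, ?_⟩
    have e0 : Ad (sym3 (C 0)) (w 0 : M4) = w 0 := Ad_fix (hC 0).2 (w 0).2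
    have e1 : Ad (sym3 (C 1)) (w 1 : M4) = w 1 := Ad_fix (hC 1).2 (w 1).2
    have e2 : (w 1 : M4) = w 0 := by
      apply Ad_inj (hJ 0)
      rw [← h1, e0]
    have e3 : Ad (sym3 (C 0 * C 1)) (w 0 : M4) = w 0 := by
      rw [sym3_mul, Ad_mul]
      nth_rewrite 1 [← e2]
      rw [e1, e2, e0]
    rw [hs, sym3_smul, Ad_smul (pow_ne_zero 3 hs0)] at e3
    have hu : IsUnit (sym3 (g 0)).det := by
      rw [sym3_det, ← hA, A.2]; simp
    rw [hA]
    rw [Ad_apply] at e3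
    have := congrArg (fun Z => Z * sym3 (g 0)) e3
    simp only [Matrix.mul_assoc, Matrix.nonsing_inv_mul _ hu, Matrix.mul_one] at this
    exact this
  refine dim_lemma (Lam C) sp hB4 (Lam_mem_sp C hC) (Rv C) (Bd g) hdim hcon
    (spc (sym3 (A : M2))) (hB3 A hg) ((spc (sym3 (C 0))).subtype ∘ₗ LinearMap.proj 0)
    (fun w _ hw => hcomm w hw) ?_
  intro w hL hw h0
  have h0 : (w 0 : M4) = 0 := h0
  obtain ⟨h1, h2, h3, h5⟩ := hzero w hw
  have w1 : (w 1 : M4) = 0 := by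
    apply Ad_inj (hJ 0)
    rw [← h1, h0, map_zero]
  have w2 : (w 2 : M4) = 0 := by rw [h2, w1, map_zero]
  rw [Lam_apply, h0, w1, w2, zero_sub, neg_eq_zero] at hL
  have hL1 := (map_eq_zero_iff _ (Ad_inj (hJ 0))).mp hL
  rw [zero_sub, neg_eq_zero] at hL1
  have hL2 := (map_eq_zero_iff _ (Ad_inj (hJ 1))).mp hL1
  rw [zero_sub, neg_eq_zero] at hL2
  have hL3 := (map_eq_zero_iff _ (Ad_inj (hJ 2))).mp hL2
  rw [h3, ← map_sub, sub_sub_cancel] at hL3
  have hL4 := (map_eq_zero_iff _ (Ad_inj (hJ 3))).mp hL3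
  have w5 : (w 5 : M4) = 0 := (map_eq_zero_iff _ (Ad_inj (hJ 4))).mp hL4
  have w4 : (w 4 : M4) = 0 := by
    apply Ad_inj (hJ 5)
    rw [← h5, w5, map_zero]
  have w3 : (w 3 : M4) = 0 := by rw [h3, w4, map_zero]
  funext i
  apply Subtype.ext
  fin_cases i
  · exact h0
  · exact w1
  · exact w2
  · exact w3
  · exact w4
  · exact w5

end

/-- the affine involutions -/
noncomputable def phi (C : M2) (w X : M4) : M4 := -(sym3 C * X * (sym3 C)⁻¹) + w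

theorem phi_eq (C : M2) (w X : M4) : phi C w X = w - Ad (sym3 C) X := by
  rw [phi, Ad_apply]; abel

theorem phi_invol {C : M2} (h : C.trace = 0) (hd : C.det ≠ 0) {w : M4}
    (hw : w ∈ spc (sym3 C)) : Function.Involutive (phi C w) := by
  intro X
  rw [phi_eq, phi_eq, map_sub, Ad_fix hd hw, Ad_sq h hd, sub_sub_cancel]

theorem phi_add (C : M2) (w X Y : M4) : phi C w (X + Y) = phi C w X - Ad (sym3 C) Y := by
  rw [phi_eq, phi_eq, map_add]; abel

theorem phi_prod (C : Fin 6 → M2) (w : Wt C) (hw : Lam C w = 0) (p : ℝ) (hp0 : p ≠ 0)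
    (hp : C 0 * C 1 * C 2 * C 3 * C 4 * C 5 = p • (1 : M2)) (X : M4) :
    phi (C 0) (w 0) (phi (C 1) (w 1) (phi (C 2) (w 2) (phi (C 3) (w 3)
      (phi (C 4) (w 4) (phi (C 5) (w 5) X))))) = X := by
  have e5 : phi (C 5) (w 5) X = phi (C 5) (w 5) 0 - Ad (sym3 (C 5)) X := by
    rw [← phi_add, zero_add]
  have step : ∀ i (Y Z : M4), phi (C i) (w i) (Y - Z) =
      phi (C i) (w i) Y + Ad (sym3 (C i)) Z := by
    intro i Y Z
    rw [sub_eq_add_neg, phi_add, map_neg, sub_neg_eq_add]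
  rw [e5, step 4, phi_add, step 2, phi_add, step 0]
  have hA : Ad (sym3 (C 0)) (Ad (sym3 (C 1)) (Ad (sym3 (C 2)) (Ad (sym3 (C 3))
      (Ad (sym3 (C 4)) (Ad (sym3 (C 5)) X))))) = X := by
    rw [← Ad_mul, ← Ad_mul, ← Ad_mul, ← Ad_mul, ← Ad_mul, ← sym3_mul, ← sym3_mul,
      ← sym3_mul, ← sym3_mul, ← sym3_mul, hp, sym3_smul, sym3_one,
      Ad_scalar (pow_ne_zero 3 hp0)]
  have hL : phi (C 0) (w 0) (phi (C 1) (w 1) (phi (C 2) (w 2) (phi (C 3) (w 3)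
      (phi (C 4) (w 4) (phi (C 5) (w 5) 0))))) = 0 := by
    rw [Lam_apply] at hw
    simp only [phi_eq, map_zero, sub_zero]
    exact hw
  rw [hA, hL, zero_add]

/-- the affine involutions as permutations -/
noncomputable def phiPerm (C : Fin 6 → M2) (hC : ∀ i, (C i).trace = 0 ∧ (C i).det ≠ 0)
    (w : Wt C) (i : Fin 6) : Equiv.Perm M4 :=
  Function.Involutive.toPerm (phi (C i) (w i)) (phi_invol (hC i).1 (hC i).2 (w i).2)

theorem phiPerm_apply (C : Fin 6 → M2) (hC : ∀ i, (C i).trace = 0 ∧ (C i).det ≠ 0)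
    (w : Wt C) (i : Fin 6) (X : M4) : phiPerm C hC w i X = phi (C i) (w i) X := rfl

theorem phiPerm_sq (C : Fin 6 → M2) (hC : ∀ i, (C i).trace = 0 ∧ (C i).det ≠ 0)
    (w : Wt C) (i : Fin 6) : phiPerm C hC w i * phiPerm C hC w i = 1 := by
  apply Equiv.ext
  intro X
  rw [Equiv.Perm.mul_apply, phiPerm_apply, phiPerm_apply, Equiv.Perm.one_apply]
  exact phi_invol (hC i).1 (hC i).2 (w i).2 X

theorem phiPerm_prod (C : Fin 6 → M2) (hC : ∀ i, (C i).trace = 0 ∧ (C i).det ≠ 0)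
    (w : Wt C) (hw : Lam C w = 0) (p : ℝ) (hp0 : p ≠ 0)
    (hp : C 0 * C 1 * C 2 * C 3 * C 4 * C 5 = p • (1 : M2)) :
    phiPerm C hC w 0 * phiPerm C hC w 1 * phiPerm C hC w 2 * phiPerm C hC w 3 *
      phiPerm C hC w 4 * phiPerm C hC w 5 = 1 := by
  apply Equiv.ext
  intro X
  rw [Equiv.Perm.mul_apply, Equiv.Perm.mul_apply, Equiv.Perm.mul_apply, Equiv.Perm.mul_apply,
    Equiv.Perm.mul_apply, Equiv.Perm.one_apply]
  exact phi_prod C w hw p hp0 hp X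

theorem exists_Phi (C : Fin 6 → M2) (hC : ∀ i, (C i).trace = 0 ∧ (C i).det ≠ 0)
    (w : Wt C) (hw : Lam C w = 0) (p : ℝ) (hp0 : p ≠ 0)
    (hp : C 0 * C 1 * C 2 * C 3 * C 4 * C 5 = p • (1 : M2)) :
    ∃ Φ : Orb →* Equiv.Perm M4, ∀ i X, Φ (cc i) X = phi (C i) (w i) X := by
  have hrel : ∀ r ∈ rels6, FreeGroup.lift (phiPerm C hC w) r = 1 := by
    intro r hr
    rcases hr with ⟨i, hr⟩ | hr
    · rw [hr, map_mul, FreeGroup.lift_apply_of]
      exact phiPerm_sq C hC w i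
    · rw [hr]
      simp only [map_mul, FreeGroup.lift_apply_of]
      exact phiPerm_prod C hC w hw p hp0 hp
  refine ⟨PresentedGroup.toGroup hrel, fun i X => ?_⟩
  have : PresentedGroup.toGroup hrel (cc i) = phiPerm C hC w i := PresentedGroup.toGroup.of hrel
  rw [this, phiPerm_apply]

theorem part_D (hB2 : S_B2) (hB3 : S_B3) (hB4 : S_B4) : S_D := by
  intro ρ₀ C hhyp hC h01 h21 h34 h54 hprod
  obtain ⟨s, hs⟩ := h01
  obtain ⟨w, hw, hne⟩ := exists_noncob C hB2 hB3 hB4 (fun i => (ρ₀ (gen i) : M2)) (ρ₀ (gen 0)) rfl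
    hhyp hC s hs
  obtain ⟨p, hp⟩ := hprod
  have hp0 : p ≠ 0 := by
    rintro rfl
    have := congrArg Matrix.det hp
    rw [zero_smul, Matrix.det_zero] at this
    simp only [Matrix.det_mul] at this
    exact mul_ne_zero (mul_ne_zero (mul_ne_zero (mul_ne_zero (mul_ne_zero (hC 0).2 (hC 1).2)
      (hC 2).2) (hC 3).2) (hC 4).2) (hC 5).2 this
  obtain ⟨Φ, hΦ⟩ := exists_Phi C hC w hw p hp0 hp
  refine ⟨fun i => (w i : M4), fun i => (w i).2, ⟨Φ, hΦ⟩, ?_⟩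
  rintro ⟨X, hX, h0, h1, h2, h3⟩
  apply hne ⟨X, hX⟩
  rw [Rv_apply, Bd_apply]
  funext i
  fin_cases i
  · exact h0
  · exact h1
  · exact h2
  · exact h3

end P8H97.HR
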