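import Pool.Agent.P8H97.HR.PartD

/-! Project HR: assembly. -/

namespace P8H97.HR

open Matrix

theorem Ad_sub_one (J : M4) (X : M4) : X - J * X * J⁻¹ = X - Ad J X := rfl

/-- the cocycle defined by the affine action -/
def zc (Φ : Orb →* Equiv.Perm M4) (j : Surf →* Orb) (γ : Surf) : M4 := Φ (j γ) 0

section
variable {ρ₀ : Surf →* SL2} {Φ : Orb →* Equiv.Perm M4} {j : Surf →* Orb}
  {C : Fin 6 → M2} {w : Fin 6 → M4}

theorem surf_closure : Subgroup.closure (Set.range gen) = ⊤ :=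
  PresentedGroup.closure_range_of _

/-- the affine action on the surface group -/
def Aff (ρ₀ : Surf →* SL2) (Φ : Orb →* Equiv.Perm M4) (j : Surf →* Orb) (γ : Surf) : Prop :=
  zc Φ j γ ∈ sp ∧ ∀ X, Φ (j γ) X = Ad (sym3 (ρ₀ γ : M2)) X + zc Φ j γ

theorem rho_det (ρ₀ : Surf →* SL2) (γ : Surf) : (ρ₀ γ : M2).det = 1 := (ρ₀ γ).2

theorem rho_det_ne (ρ₀ : Surf →* SL2) (γ : Surf) : (ρ₀ γ : M2).det ≠ 0 := by
  rw [rho_det]; exact one_ne_zero

theorem aff_mul {γ δ : Surf} (h1 : Aff ρ₀ Φ j γ) (h2 : Aff ρ₀ Φ j δ) : Aff ρ₀ Φ j (γ * δ) := by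
  have hz : zc Φ j (γ * δ) = Ad (sym3 (ρ₀ γ : M2)) (zc Φ j δ) + zc Φ j γ := by
    rw [zc, map_mul, map_mul, Equiv.Perm.mul_apply, h1.2]
    rfl
  refine ⟨?_, fun X => ?_⟩
  · rw [hz]
    exact sp.add_mem (Ad_mem_sp (rho_det_ne ρ₀ γ) h2.1) h1.1
  · have hm : sym3 (ρ₀ (γ * δ) : M2) = sym3 (ρ₀ γ : M2) * sym3 (ρ₀ δ : M2) := by
      rw [map_mul]
      exact sym3_mul _ _
    rw [hz, map_mul, map_mul, Equiv.Perm.mul_apply, h2.2, h1.2, map_add, hm, Ad_mul]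
    abel

theorem Ad_one (X : M4) : Ad 1 X = X := by
  rw [Ad_apply, inv_one, Matrix.one_mul, Matrix.mul_one]

theorem aff_one : Aff ρ₀ Φ j 1 := by
  have hz : zc Φ j 1 = 0 := by rw [zc, map_one, map_one]; rfl
  refine ⟨by rw [hz]; exact sp.zero_mem, fun X => ?_⟩
  rw [hz, map_one, map_one, map_one]
  have : sym3 ((1 : SL2) : M2) = 1 := sym3_one
  rw [this, Ad_one, add_zero]
  rfl

theorem sym3_inv (A : SL2) : sym3 ((A⁻¹ : SL2) : M2) * sym3 (A : M2) = 1 := by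
  have h : ((A⁻¹ * A : SL2) : M2) = 1 := by rw [inv_mul_cancel]; rfl
  rw [← sym3_mul]
  have h2 : ((A⁻¹ : SL2) : M2) * (A : M2) = 1 := by rw [← h]; rfl
  rw [h2, sym3_one]

theorem sym3_inv' (A : SL2) : sym3 (A : M2) * sym3 ((A⁻¹ : SL2) : M2) = 1 := by
  have := sym3_inv A
  exact mul_eq_one_comm.mp this

theorem sym3_inv_eq (A : SL2) : sym3 ((A⁻¹ : SL2) : M2) = (sym3 (A : M2))⁻¹ :=
  (Matrix.inv_eq_left_inv (sym3_inv A)).symm

theorem aff_inv {γ : Surf} (h1 : Aff ρ₀ Φ j γ) : Aff ρ₀ Φ j γ⁻¹ := by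
  have key : ∀ X, Φ (j γ⁻¹) X = Ad (sym3 (ρ₀ γ⁻¹ : M2)) X - Ad (sym3 (ρ₀ γ⁻¹ : M2)) (zc Φ j γ) := by
    intro X
    have h2 : Φ (j γ) (Φ (j γ⁻¹) X) = X := by
      rw [← Equiv.Perm.mul_apply, ← map_mul, ← map_mul, mul_inv_cancel, map_one, map_one]
      rfl
    rw [h1.2] at h2
    have h3 := congrArg (Ad (sym3 (ρ₀ γ⁻¹ : M2))) h2
    rw [map_add, ← Ad_mul, map_inv, sym3_inv, Ad_one] at h3
    rw [map_inv ρ₀, ← h3]
    abel
  have hz : zc Φ j γ⁻¹ = -Ad (sym3 (ρ₀ γ⁻¹ : M2)) (zc Φ j γ) := by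
    rw [zc, key, map_zero, zero_sub]
  refine ⟨?_, fun X => ?_⟩
  · rw [hz]
    exact sp.neg_mem (Ad_mem_sp (rho_det_ne ρ₀ γ⁻¹) h1.1)
  · rw [hz, key, sub_eq_add_neg]

theorem aff_prod {A B : Fin 6} {γ : Surf} (hC : ∀ i, (C i).trace = 0 ∧ (C i).det ≠ 0)
    (hw : ∀ i, w i ∈ spc (sym3 (C i)))
    (hΦ : ∀ i X, Φ (cc i) X = -(sym3 (C i) * X * (sym3 (C i))⁻¹) + w i)
    (hj : j γ = cc A * cc B) (hs : ∃ s : ℝ, C A * C B = s • (ρ₀ γ : M2)) : Aff ρ₀ Φ j γ := by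
  obtain ⟨s, hs⟩ := hs
  have hs0 : s ≠ 0 := by
    rintro rfl
    have := congrArg Matrix.det hs
    rw [zero_smul, Matrix.det_mul, Matrix.det_zero] at this
    exact mul_ne_zero (hC A).2 (hC B).2 this
  have key : ∀ X, Φ (j γ) X = Ad (sym3 (ρ₀ γ : M2)) X + (w A - Ad (sym3 (C A)) (w B)) := by
    intro X
    rw [hj, map_mul, Equiv.Perm.mul_apply, hΦ, hΦ, ← Ad_apply, ← Ad_apply, map_add, map_neg,
      ← Ad_mul, ← sym3_mul, hs, sym3_smul, Ad_smul (pow_ne_zero 3 hs0)]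
    abel
  have hz : zc Φ j γ = w A - Ad (sym3 (C A)) (w B) := by
    rw [zc, key, map_zero, zero_add]
  refine ⟨?_, fun X => ?_⟩
  · rw [hz]
    exact sp.sub_mem (hw A).1 (Ad_mem_sp (hC A).2 (hw B).1)
  · rw [hz, key]

theorem aff_all (hC : ∀ i, (C i).trace = 0 ∧ (C i).det ≠ 0)
    (hw : ∀ i, w i ∈ spc (sym3 (C i)))
    (hΦ : ∀ i X, Φ (cc i) X = -(sym3 (C i) * X * (sym3 (C i))⁻¹) + w i)
    (j0 : j (gen 0) = cc 0 * cc 1) (j1 : j (gen 1) = cc 2 * cc 1)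
    (j2 : j (gen 2) = cc 3 * cc 4) (j3 : j (gen 3) = cc 5 * cc 4)
    (h01 : ∃ s : ℝ, C 0 * C 1 = s • (ρ₀ (gen 0) : M2))
    (h21 : ∃ s : ℝ, C 2 * C 1 = s • (ρ₀ (gen 1) : M2))
    (h34 : ∃ s : ℝ, C 3 * C 4 = s • (ρ₀ (gen 2) : M2))
    (h54 : ∃ s : ℝ, C 5 * C 4 = s • (ρ₀ (gen 3) : M2)) (γ : Surf) : Aff ρ₀ Φ j γ := by
  have hγ : γ ∈ Subgroup.closure (Set.range gen) := by rw [surf_closure]; trivial
  induction hγ using Subgroup.closure_induction with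
  | mem x hx =>
    obtain ⟨i, rfl⟩ := hx
    fin_cases i
    · exact aff_prod hC hw hΦ j0 h01
    · exact aff_prod hC hw hΦ j1 h21
    · exact aff_prod hC hw hΦ j2 h34
    · exact aff_prod hC hw hΦ j3 h54
  | one => exact aff_one
  | mul x y _ _ hx hy => exact aff_mul hx hy
  | inv x _ hx => exact aff_inv hx

end

/-- trace zero -/
theorem sp_trace {X : M4} (h : X ∈ sp) : X.trace = 0 := by
  have h' : Xᵀ * Om + Om * X = 0 := h
  have h0 := congrFun (congrFun h' 0) 3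
  have h1 := congrFun (congrFun h' 1) 2
  simp [Om, Matrix.mul_apply, Fin.sum_univ_succ, Matrix.vecMul, dotProduct] at h0 h1
  simp [Matrix.trace, Fin.sum_univ_succ]
  linarith

/-- the projection to `sp` -/
noncomputable def prj (X : M4) : M4 := (1 / 2 : ℝ) • (X - Om⁻¹ * Xᵀ * Om)

theorem Om_unit : IsUnit Om.det := isUnit_iff_ne_zero.mpr Om_det

theorem Om_transpose : Omᵀ = -Om := by
  ext i j
  fin_cases i <;> fin_cases j <;> simp [Om]

theorem prj_mem (X : M4) : prj X ∈ sp := by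
  change (prj X)ᵀ * Om + Om * prj X = 0
  have hO : (Om⁻¹)ᵀ = -Om⁻¹ := by
    rw [Matrix.transpose_nonsing_inv, Om_transpose]
    apply Matrix.inv_eq_right_inv
    rw [neg_mul_neg, Matrix.mul_nonsing_inv _ Om_unit]
  rw [prj, Matrix.transpose_smul, Matrix.transpose_sub, Matrix.transpose_mul,
    Matrix.transpose_mul, Matrix.transpose_transpose, hO, Om_transpose, Matrix.smul_mul,
    Matrix.mul_smul, ← smul_add]
  have : (Xᵀ - -Om * (X * -Om⁻¹)) * Om + Om * (X - Om⁻¹ * Xᵀ * Om) = 0 := by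
    rw [Matrix.sub_mul, Matrix.mul_sub]
    have e1 : -Om * (X * -Om⁻¹) * Om = Om * X := by
      rw [Matrix.mul_neg, neg_mul_neg, Matrix.mul_assoc, Matrix.mul_assoc,
        Matrix.nonsing_inv_mul _ Om_unit, Matrix.mul_one]
    have e2 : Om * (Om⁻¹ * Xᵀ * Om) = Xᵀ * Om := by
      rw [← Matrix.mul_assoc, ← Matrix.mul_assoc, Matrix.mul_nonsing_inv _ Om_unit,
        Matrix.one_mul]
    rw [e1, e2]
    abel
  rw [this, smul_zero]

theorem prj_of_mem {X : M4} (h : X ∈ sp) : prj X = X := by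
  have h' : Xᵀ * Om + Om * X = 0 := h
  have h2 : Xᵀ * Om = -(Om * X) := eq_neg_of_add_eq_zero_left h'
  rw [prj, Matrix.mul_assoc, h2, Matrix.mul_neg, ← Matrix.mul_assoc,
    Matrix.nonsing_inv_mul _ Om_unit, Matrix.one_mul, sub_neg_eq_add, ← two_smul ℝ, smul_smul]
  norm_num

theorem prj_Ad (A : SL2) (X : M4) : prj (Ad (sym3 (A : M2)) X) = Ad (sym3 (A : M2)) (prj X) := by
  set g := sym3 (A : M2) with hg
  have hO : gᵀ * Om * g = Om := by
    rw [hg, sym3_Om, A.2, one_pow, one_smul]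
  have hu : IsUnit g.det := by rw [hg, sym3_det, A.2]; simp
  have hut : IsUnit gᵀ.det := by rw [Matrix.det_transpose]; exact hu
  have e1 : gᵀ * Om = Om * g⁻¹ := by
    calc gᵀ * Om = (gᵀ * Om * g) * g⁻¹ := by
          rw [Matrix.mul_assoc _ g, Matrix.mul_nonsing_inv _ hu, Matrix.mul_one]
      _ = Om * g⁻¹ := by rw [hO]
  have e2 : Om⁻¹ * (g⁻¹)ᵀ = g * Om⁻¹ := by
    have : (gᵀ * Om)⁻¹ = (Om * g⁻¹)⁻¹ := by rw [e1]
    rw [Matrix.mul_inv_rev, Matrix.mul_inv_rev, Matrix.nonsing_inv_nonsing_inv _ hu] at this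
    rw [Matrix.transpose_nonsing_inv]
    exact this
  rw [Ad_apply, Ad_apply, prj, prj, Matrix.mul_smul, Matrix.smul_mul]
  congr 1
  rw [Matrix.transpose_mul, Matrix.transpose_mul, Matrix.mul_sub, Matrix.sub_mul]
  congr 1
  calc Om⁻¹ * ((g⁻¹)ᵀ * (Xᵀ * gᵀ)) * Om = (Om⁻¹ * (g⁻¹)ᵀ) * Xᵀ * (gᵀ * Om) := by
        simp only [Matrix.mul_assoc]
    _ = g * (Om⁻¹ * Xᵀ * Om) * g⁻¹ := by
        rw [e1, e2]; simp only [Matrix.mul_assoc]

/-- a matrix commuting with everything up to conjugation -/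
theorem scalar_of_Ad {G H : M4} (hG : G.det ≠ 0) (hH : H.det ≠ 0)
    (h : ∀ X, Ad G X = Ad H X) : ∃ c : ℝ, G = c • H := by
  have huG : IsUnit G.det := isUnit_iff_ne_zero.mpr hG
  have huH : IsUnit H.det := isUnit_iff_ne_zero.mpr hH
  have hc : ∀ X, Commute X (H⁻¹ * G) := by
    intro X
    have h1 := h X
    rw [Ad_apply, Ad_apply] at h1
    have h2 := congrArg (fun Z => H⁻¹ * Z * G) h1
    simp only [Matrix.mul_assoc, Matrix.nonsing_inv_mul _ huG, Matrix.mul_one] at h2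
    rw [Matrix.nonsing_inv_mul_cancel_left _ _ huH] at h2
    rw [commute_iff_eq, ← h2, Matrix.mul_assoc]
  have h3 : H⁻¹ * G ∈ Set.range (Matrix.scalar (Fin 4) : ℝ → M4) :=
    Matrix.mem_range_scalar_of_commute_single fun i j _ => (hc _)
  obtain ⟨c, hc⟩ := h3
  refine ⟨c, ?_⟩
  have h4 : H * (Matrix.scalar (Fin 4) c) = H * (H⁻¹ * G) := by rw [hc]
  rw [Matrix.mul_nonsing_inv_cancel_left _ _ huH] at h4
  rw [← h4]
  ext i j
  simp [Matrix.scalar_apply, Matrix.mul_diagonal]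
  ring

theorem sym3_trace (A : SL2) : (sym3 (A : M2)).trace =
    (A : M2).trace * ((A : M2).trace ^ 2 - 2) := by
  have hd : (A : M2) 0 0 * (A : M2) 1 1 - (A : M2) 0 1 * (A : M2) 1 0 = 1 := by
    rw [← Matrix.det_fin_two]; exact A.2
  simp [Matrix.trace, Fin.sum_univ_succ, sym3]
  linear_combination (-2 * (A : M2) 0 0 - 2 * (A : M2) 1 1) * hd

/-- the derivative functional of a class function at a group element in a cocycle direction -/
theorem part_G (hA : S_A) (hD : S_D) (hK5 : S_K5) (hK6 : S_K6) (hE : S_E) (hF : S_F)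
    (hC' : S_C) (hN : S_N) : S_Final := by
  intro ρ₀ hyp
  obtain ⟨n0, n1, n01⟩ := hN
  have hrel : ρ₀ (gen 0) * ρ₀ (gen 1) * (ρ₀ (gen 0))⁻¹ * (ρ₀ (gen 1))⁻¹ *
      (ρ₀ (gen 2) * ρ₀ (gen 3) * (ρ₀ (gen 2))⁻¹ * (ρ₀ (gen 3))⁻¹) = 1 := by
    have := congrArg ρ₀ surf_rel
    simpa only [map_mul, map_inv, map_one] using this
  have hk : 2 < |((ρ₀ (gen 0) * ρ₀ (gen 1) * (ρ₀ (gen 0))⁻¹ * (ρ₀ (gen 1))⁻¹ : SL2) :
      M2).trace| := by
    have := hyp _ n01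
    simpa only [map_mul, map_inv] using this
  obtain ⟨C, hC, h01, h21, h34, h54, hprod⟩ := hA _ _ _ _ hrel hk
  obtain ⟨w, hw, ⟨Φ, hΦ⟩, hne⟩ := hD ρ₀ C (hyp _ n0) hC h01 h21 h34 h54 hprod
  obtain ⟨j, j0, j1, j2, j3, hj⟩ := hC'
  have haff : ∀ γ, Aff ρ₀ Φ j γ := aff_all hC hw hΦ j0 j1 j2 j3 h01 h21 h34 h54
  let ρ : Surf →* SL4 := sym3Hom.comp ρ₀
  have hρ : ∀ γ, (ρ γ : M4) = sym3 (ρ₀ γ : M2) := fun γ => rfl
  have hρi : ∀ γ, (((ρ γ)⁻¹ : SL4) : M4) = (sym3 (ρ₀ γ : M2))⁻¹ := by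
    intro γ
    rw [← map_inv, hρ, map_inv, sym3_inv_eq]
  let z : Surf → M4 := zc Φ j
  have hzsp : ∀ γ, z γ ∈ sp := fun γ => (haff γ).1
  have hΦz : ∀ γ X, Φ (j γ) X = Ad (sym3 (ρ₀ γ : M2)) X + z γ := fun γ => (haff γ).2
  have hzmul : ∀ γ δ, z (γ * δ) = z γ + Ad (sym3 (ρ₀ γ : M2)) (z δ) := by
    intro γ δ
    change Φ (j (γ * δ)) 0 = _
    rw [map_mul, map_mul, Equiv.Perm.mul_apply, hΦz, add_comm]
    rfl
  -- the path
  have hcent : ∀ X : M4, (∀ γ, X * (ρ γ : M4) = (ρ γ : M4) * X) → ∃ c : ℝ, X = c • (1 : M4) := by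
    intro X hX
    exact hK6 (ρ₀ (gen 0)) (ρ₀ (gen 1)) (hyp _ n0) (hyp _ n1) hk X (hX (gen 0)) (hX (gen 1))
  obtain ⟨R, hR0, hR⟩ := hF ρ hcent z
    (fun γ δ => by rw [hzmul, Ad_apply, hρ, hρi]) (fun γ => sp_trace (hzsp γ))
  refine ⟨R, z, hR0, ?_, ?_, ?_⟩
  · intro γ i k
    rw [hR0]
    exact hR γ i k
  · rintro ⟨X, hX⟩
    apply hne
    have hY : ∀ γ, z γ = prj X - Ad (sym3 (ρ₀ γ : M2)) (prj X) := by
      intro γ
      have h1 := hX γ
      rw [hR0, hρ, hρi, ← Ad_apply] at h1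
      have h2 := congrArg prj h1
      rw [prj_of_mem (hzsp γ)] at h2
      rw [h2, ← prj_Ad]
      simp only [prj]
      rw [← smul_sub, Matrix.transpose_sub, Matrix.mul_sub, Matrix.sub_mul]
      congr 1
      abel
    have hzg : ∀ (γ : Surf) (A B : Fin 6), j γ = cc A * cc B →
        z γ = w A - Ad (sym3 (C A)) (w B) := by
      intro γ A B h
      change Φ (j γ) 0 = _
      rw [h, map_mul, Equiv.Perm.mul_apply, hΦ, hΦ, Matrix.mul_zero, Matrix.zero_mul, neg_zero,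
        zero_add, Ad_apply]
      abel
    refine ⟨prj X, prj_mem X, ?_, ?_, ?_, ?_⟩
    · rw [← Ad_apply, ← Ad_apply, ← hzg _ _ _ j0, hY]
    · rw [← Ad_apply, ← Ad_apply, ← hzg _ _ _ j1, hY]
    · rw [← Ad_apply, ← Ad_apply, ← hzg _ _ _ j2, hY]
    · rw [← Ad_apply, ← Ad_apply, ← hzg _ _ _ j3, hY]
  · intro f hf γ hS
    obtain ⟨l, l1, l2, l3⟩ := hE f hf
    by_cases hγ1 : γ = 1
    · subst hγ1
      have : (fun t => f (R t 1)) = fun _ => f 1 := by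
        funext t; rw [map_one]
      rw [this]
      exact hasDerivAt_const _ _
    have hhyp := hyp γ hγ1
    have hder := l1 (fun t => R t γ) (z γ * (ρ γ : M4)) (hR γ)
    have hR0' : R 0 γ = ρ γ := by rw [hR0]
    simp only [hR0'] at hder
    -- it suffices that the derivative functional vanishes
    suffices hzero : l (ρ γ) (z γ * (ρ γ : M4)) = 0 by
      rwa [hzero] at hder
    obtain ⟨h, hh⟩ := hj γ hS
    have hgu : ∀ δ, IsUnit (sym3 (ρ₀ δ : M2)).det := by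
      intro δ
      rw [sym3_det, rho_det]; simp
    have hzinv : ∀ k : Surf, z k⁻¹ = -Ad (sym3 (ρ₀ k⁻¹ : M2)) (z k) := by
      intro k
      have h1 := hzmul k⁻¹ k
      rw [inv_mul_cancel] at h1
      have h0 : z 1 = 0 := by
        have := hzmul 1 1
        rw [mul_one] at this
        have e : Ad (sym3 (ρ₀ 1 : M2)) (z 1) = z 1 := by
          rw [map_one]
          have e' : sym3 ((1 : SL2) : M2) = 1 := sym3_one
          rw [e', Ad_one]
        rw [e] at this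
        exact left_eq_add.mp this
      rw [h0] at h1
      exact eq_neg_of_add_eq_zero_left h1.symm
    -- invariance of the functional under conjugation in the surface group
    have hconj : ∀ η k : Surf, l (ρ (k * η * k⁻¹)) (z (k * η * k⁻¹) * (ρ (k * η * k⁻¹) : M4)) =
        l (ρ η) (z η * (ρ η : M4)) := by
      intro η k
      have e1 : z (k * η * k⁻¹) = z k - Ad (sym3 (ρ₀ (k * η * k⁻¹) : M2)) (z k) +
          Ad (sym3 (ρ₀ k : M2)) (z η) := by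
        have hk' := hzinv k
        have e2 : Ad (sym3 (ρ₀ (k * η * k⁻¹) : M2)) (z k) =
            Ad (sym3 (ρ₀ (k * η) : M2)) (Ad (sym3 (ρ₀ k⁻¹ : M2)) (z k)) := by
          rw [← Ad_mul, map_mul ρ₀ (k * η) k⁻¹, ← sym3_mul]
          rfl
        rw [hzmul (k * η) k⁻¹, hzmul k η, hk', map_neg, e2]
        abel
      have e3 : (ρ k : M4) * (ρ η : M4) = (ρ (k * η * k⁻¹) : M4) * (ρ k : M4) := by
        have : ρ k * ρ η = ρ (k * η * k⁻¹) * ρ k := by
          rw [← map_mul, ← map_mul]; congr 1; group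
        exact congrArg (fun g : SL4 => (g : M4)) this
      have hdk : (0 : ℝ) < (ρ k : M4).det := by rw [(ρ k).2]; exact one_pos
      have e4 := l3 (ρ η) (ρ (k * η * k⁻¹)) (ρ k : M4) hdk e3 (z η) (sp_trace (hzsp η))
      have hku : IsUnit (ρ k : M4).det := by rw [(ρ k).2]; exact isUnit_one
      have e5 : (ρ (k * η * k⁻¹) : M4) = (ρ k : M4) * (ρ η : M4) * (ρ k : M4)⁻¹ := by
        rw [e3, Matrix.mul_assoc, Matrix.mul_nonsing_inv _ hku, Matrix.mul_one]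
      have e6 : z (k * η * k⁻¹) * (ρ (k * η * k⁻¹) : M4) =
          (z k * (ρ (k * η * k⁻¹) : M4) - (ρ (k * η * k⁻¹) : M4) * z k) +
            (ρ k : M4) * (z η * (ρ η : M4)) * (ρ k : M4)⁻¹ := by
        rw [e1, Matrix.add_mul, Matrix.sub_mul]
        congr 1
        · congr 1
          rw [Ad_apply, ← hρ, Matrix.mul_assoc _ _ (ρ (k * η * k⁻¹) : M4),
            Matrix.nonsing_inv_mul, Matrix.mul_one]
          rw [(ρ (k * η * k⁻¹)).2]; exact isUnit_one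
        · rw [Ad_apply, ← hρ, e5]
          simp only [Matrix.mul_assoc]
          rw [Matrix.nonsing_inv_mul_cancel_left _ _ hku]
      rw [e6, map_add, l2, zero_add, e4]
    -- behaviour under the inverse
    have hgg : (ρ γ : M4) * (ρ γ⁻¹ : M4) = 1 := by
      have : ρ γ * ρ γ⁻¹ = 1 := by rw [← map_mul, mul_inv_cancel, map_one]
      exact congrArg (fun g : SL4 => (g : M4)) this
    have hgg' : (ρ γ⁻¹ : M4) * (ρ γ : M4) = 1 := mul_eq_one_comm.mp hgg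
    have hinv : l (ρ γ⁻¹) (z γ⁻¹ * (ρ γ⁻¹ : M4)) = l (ρ γ) (z γ * (ρ γ : M4)) := by
      obtain ⟨v, hv0, hv1, hv2⟩ := hK5 (ρ₀ γ) hhyp
      obtain ⟨Y, H, hZ, hHt, hHg, hvH⟩ := hv2 (z γ) (hzsp γ)
      have hvu : IsUnit v.det := isUnit_iff_ne_zero.mpr hv0.ne'
      rw [← map_inv ρ₀] at hv1 hZ
      change v * (ρ γ : M4) = (ρ γ⁻¹ : M4) * v at hv1
      change z γ = Y - (ρ γ : M4) * Y * (ρ γ⁻¹ : M4) + H at hZ
      have hadj : (sym3 (ρ₀ γ⁻¹ : M2))⁻¹ = (ρ γ : M4) := by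
        apply Matrix.inv_eq_right_inv
        exact hgg'
      have q1 : l (ρ γ) (z γ * (ρ γ : M4)) = l (ρ γ) (H * (ρ γ : M4)) := by
        have : z γ * (ρ γ : M4) = (Y * (ρ γ : M4) - (ρ γ : M4) * Y) + H * (ρ γ : M4) := by
          rw [hZ, Matrix.add_mul, Matrix.sub_mul, Matrix.mul_assoc _ (ρ γ⁻¹ : M4), hgg',
            Matrix.mul_one]
        rw [this, map_add, l2, zero_add]
      have q2 : l (ρ γ⁻¹) (z γ * (ρ γ⁻¹ : M4)) = l (ρ γ⁻¹) (H * (ρ γ⁻¹ : M4)) := by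
        have : z γ * (ρ γ⁻¹ : M4) = ((-((ρ γ : M4) * Y * (ρ γ⁻¹ : M4))) * (ρ γ⁻¹ : M4) -
            (ρ γ⁻¹ : M4) * (-((ρ γ : M4) * Y * (ρ γ⁻¹ : M4)))) + H * (ρ γ⁻¹ : M4) := by
          have e : (ρ γ⁻¹ : M4) * ((ρ γ : M4) * Y * (ρ γ⁻¹ : M4)) = Y * (ρ γ⁻¹ : M4) := by
            rw [← Matrix.mul_assoc, ← Matrix.mul_assoc, hgg', Matrix.one_mul]
          rw [hZ, Matrix.add_mul, Matrix.sub_mul, Matrix.mul_neg, e, Matrix.neg_mul]
          abel
        rw [this, map_add, l2, zero_add]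
      have q3 : l (ρ γ) (H * (ρ γ : M4)) = -l (ρ γ⁻¹) (H * (ρ γ⁻¹ : M4)) := by
        rw [← l3 (ρ γ) (ρ γ⁻¹) v hv0 hv1 H hHt, ← map_neg]
        congr 1
        rw [← Matrix.mul_assoc v H, hvH, Matrix.neg_mul, Matrix.mul_assoc H v, hv1,
          ← Matrix.mul_assoc H, Matrix.neg_mul, Matrix.mul_assoc _ v,
          Matrix.mul_nonsing_inv _ hvu, Matrix.mul_one]
      have q4 : l (ρ γ⁻¹) (z γ⁻¹ * (ρ γ⁻¹ : M4)) = -l (ρ γ⁻¹) (z γ * (ρ γ⁻¹ : M4)) := by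
        have e : z γ⁻¹ * (ρ γ⁻¹ : M4) = -((ρ γ⁻¹ : M4) * z γ) := by
          rw [hzinv, Ad_apply, hadj, Matrix.neg_mul, Matrix.mul_assoc _ (ρ γ : M4), hgg,
            Matrix.mul_one]
          rfl
        have e2 := l2 (ρ γ⁻¹) (z γ)
        rw [map_sub] at e2
        rw [e, map_neg]
        linarith
      rw [q4, q2, q1, q3]
    -- behaviour under the involution
    have hiota : ∀ δ : Surf, cc 0 * j γ * (cc 0)⁻¹ = j δ →
        (ρ δ : M4).trace = (ρ γ : M4).trace →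
        l (ρ δ) (z δ * (ρ δ : M4)) = -l (ρ γ) (z γ * (ρ γ : M4)) := by
      intro δ hδ htrδ
      have hcc : (cc 0 : Orb)⁻¹ = cc 0 := by
        have h1 : (cc 0 : Orb) * cc 0 = 1 := by
          have h2 : PresentedGroup.mk rels6 (FreeGroup.of 0 * FreeGroup.of 0) = 1 :=
            PresentedGroup.one_of_mem (Or.inl ⟨0, rfl⟩)
          exact h2
        exact inv_eq_of_mul_eq_one_left h1
      have hJu : IsUnit (sym3 (C 0)).det := by
        rw [sym3_det]; exact isUnit_iff_ne_zero.mpr (pow_ne_zero _ (hC 0).2)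
      have hc0 : ∀ X, Φ (cc 0) X = w 0 - Ad (sym3 (C 0)) X := by
        intro X; rw [hΦ, Ad_apply]; abel
      have hw0 : Ad (sym3 (C 0)) (w 0) = w 0 := Ad_fix (hC 0).2 (hw 0)
      have hΦδ : ∀ X, Φ (j δ) X = (w 0 - Ad (sym3 (C 0)) (Ad (sym3 (ρ₀ γ : M2)) (w 0)) -
          Ad (sym3 (C 0)) (z γ)) +
          Ad (sym3 (C 0)) (Ad (sym3 (ρ₀ γ : M2)) (Ad (sym3 (C 0)) X)) := by
        intro X
        rw [← hδ, hcc, map_mul, map_mul, Equiv.Perm.mul_apply, Equiv.Perm.mul_apply, hc0, hΦz,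
          hc0]
        simp only [map_add, map_sub]
        abel
      have hzδ : z δ = w 0 - Ad (sym3 (C 0)) (Ad (sym3 (ρ₀ γ : M2)) (w 0)) -
          Ad (sym3 (C 0)) (z γ) := by
        change Φ (j δ) 0 = _
        rw [hΦδ, map_zero, map_zero, map_zero, add_zero]
      have hAdδ : ∀ X, Ad (sym3 (ρ₀ δ : M2)) X =
          Ad (sym3 (C 0)) (Ad (sym3 (ρ₀ γ : M2)) (Ad (sym3 (C 0)) X)) := by
        intro X
        have h1 := hΦz δ X
        rw [hΦδ, hzδ, add_comm] at h1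
        exact (add_right_cancel h1).symm
      have hG : ∀ X, Ad (sym3 (ρ₀ δ : M2)) X =
          Ad (sym3 (C 0) * sym3 (ρ₀ γ : M2) * (sym3 (C 0))⁻¹) X := by
        intro X
        have e1 : Ad (sym3 (C 0))⁻¹ X = Ad (sym3 (C 0)) X := by
          have e2 := Ad_sq (hC 0).1 (hC 0).2 X
          have e3 : Ad (sym3 (C 0))⁻¹ (Ad (sym3 (C 0)) (Ad (sym3 (C 0)) X)) =
              Ad (sym3 (C 0)) X := by
            rw [← Ad_mul, Matrix.nonsing_inv_mul _ hJu, Ad_one]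
          rw [e2] at e3
          exact e3
        rw [Ad_mul, Ad_mul, e1, hAdδ]
      have hGdet : (sym3 (C 0) * sym3 (ρ₀ γ : M2) * (sym3 (C 0))⁻¹).det ≠ 0 := by
        rw [Matrix.det_mul, Matrix.det_mul]
        refine mul_ne_zero (mul_ne_zero hJu.ne_zero (hgu γ).ne_zero) ?_
        rw [Matrix.det_nonsing_inv]
        exact (IsUnit.ringInverse hJu).ne_zero
      obtain ⟨c, hc⟩ := scalar_of_Ad (hgu δ).ne_zero hGdet hG
      have htrG : (sym3 (C 0) * sym3 (ρ₀ γ : M2) * (sym3 (C 0))⁻¹).trace = (ρ γ : M4).trace := by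
        rw [Matrix.trace_mul_comm, ← Matrix.mul_assoc, Matrix.nonsing_inv_mul _ hJu,
          Matrix.one_mul]
        rfl
      have htr0 : (ρ γ : M4).trace ≠ 0 := by
        rw [hρ, sym3_trace]
        have h1 : 2 ^ 2 < ((ρ₀ γ : M2).trace) ^ 2 := by
          rw [← sq_abs ((ρ₀ γ : M2).trace)]
          exact pow_lt_pow_left₀ hhyp (by norm_num) (by norm_num)
        refine mul_ne_zero ?_ ?_
        · intro h0
          rw [h0, abs_zero] at hhyp
          linarith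
        · linarith
      have hc1 : c = 1 := by
        have h1 := congrArg Matrix.trace hc
        rw [Matrix.trace_smul, htrG, smul_eq_mul] at h1
        change (ρ δ : M4).trace = _ at h1
        rw [htrδ] at h1
        have h2 : (c - 1) * (ρ γ : M4).trace = 0 := by linarith
        rcases mul_eq_zero.mp h2 with h3 | h3
        · linarith
        · exact absurd h3 htr0
      rw [hc1, one_smul] at hc
      change (ρ δ : M4) = sym3 (C 0) * (ρ γ : M4) * (sym3 (C 0))⁻¹ at hc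
      have hcomm : sym3 (C 0) * (ρ γ : M4) = (ρ δ : M4) * sym3 (C 0) := by
        rw [hc, Matrix.mul_assoc _ _ (sym3 (C 0)), Matrix.nonsing_inv_mul _ hJu, Matrix.mul_one]
      have hpos : 0 < (sym3 (C 0)).det := by
        rw [sym3_det]
        exact (by decide : Even 6).pow_pos (hC 0).2
      have e4 := l3 (ρ γ) (ρ δ) (sym3 (C 0)) hpos hcomm (z γ) (sp_trace (hzsp γ))
      have hδu : IsUnit (ρ δ : M4).det := by rw [(ρ δ).2]; exact isUnit_one
      have e5 : z δ * (ρ δ : M4) = (w 0 * (ρ δ : M4) - (ρ δ : M4) * w 0) -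
          sym3 (C 0) * (z γ * (ρ γ : M4)) * (sym3 (C 0))⁻¹ := by
        have e6 : Ad (sym3 (C 0)) (Ad (sym3 (ρ₀ γ : M2)) (w 0)) =
            (ρ δ : M4) * w 0 * (ρ δ : M4)⁻¹ := by
          have := hAdδ (w 0)
          rw [hw0] at this
          rw [← this, Ad_apply]
          rfl
        rw [hzδ, e6, Matrix.sub_mul, Matrix.sub_mul, Matrix.mul_assoc _ _ (ρ δ : M4),
          Matrix.nonsing_inv_mul _ hδu, Matrix.mul_one]
        congr 1
        rw [Ad_apply, hc]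
        simp only [Matrix.mul_assoc]
        rw [Matrix.nonsing_inv_mul_cancel_left _ _ hJu]
      rw [e5, map_sub, l2, zero_sub, e4]
    have htr1 : ∀ k η : Surf, (ρ (k * η * k⁻¹) : M4).trace = (ρ η : M4).trace := by
      intro k η
      have e1 : (ρ (k * η * k⁻¹) : M4) = (ρ k : M4) * (ρ η : M4) * (ρ k⁻¹ : M4) := by
        have : ρ (k * η * k⁻¹) = ρ k * ρ η * ρ k⁻¹ := by rw [map_mul, map_mul]
        exact congrArg (fun g : SL4 => (g : M4)) this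
      have e2 : (ρ k⁻¹ : M4) * (ρ k : M4) = 1 := by
        have : ρ k⁻¹ * ρ k = 1 := by rw [← map_mul, inv_mul_cancel, map_one]
        exact congrArg (fun g : SL4 => (g : M4)) this
      rw [e1, Matrix.trace_mul_comm, ← Matrix.mul_assoc, e2, Matrix.one_mul]
    have htr : ∀ k : Surf, (ρ (k * γ * k⁻¹) : M4).trace = (ρ γ : M4).trace := fun k => htr1 k γ
    have htr2 : (ρ γ⁻¹ : M4).trace = (ρ γ : M4).trace := by
      have e : (ρ₀ γ⁻¹ : M2).trace = (ρ₀ γ : M2).trace := by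
        rw [map_inv, Matrix.SpecialLinearGroup.coe_inv, Matrix.adjugate_fin_two,
          Matrix.trace_fin_two, Matrix.trace_fin_two]
        simp [add_comm]
      rw [hρ, hρ, sym3_trace, sym3_trace, e]
    have htr' : ∀ k : Surf, (ρ (k * γ⁻¹ * k⁻¹) : M4).trace = (ρ γ : M4).trace := fun k => by
      rw [htr1, htr2]
    rcases hh with hh | hh
    · have h1 := hiota _ hh (htr h)
      rw [hconj] at h1
      linarith
    · have h1 := hiota _ hh (htr' h)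
      rw [hconj, hinv] at h1
      linarith

end P8H97.HR
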