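import Pool.Agent.P8H97.HR.Defs

/-! Project HR: statements of the packages. -/

namespace P8H97.HR

open Matrix

/-- package A (2x2 algebra) -/
def S_A : Prop := ∀ A1 B1 A2 B2 : SL2,
  A1 * B1 * A1⁻¹ * B1⁻¹ * (A2 * B2 * A2⁻¹ * B2⁻¹) = 1 →
  2 < |((A1 * B1 * A1⁻¹ * B1⁻¹ : SL2) : M2).trace| →
  ∃ C : Fin 6 → M2, (∀ i, (C i).trace = 0 ∧ (C i).det ≠ 0) ∧
    (∃ s : ℝ, C 0 * C 1 = s • (A1 : M2)) ∧ (∃ s : ℝ, C 2 * C 1 = s • (B1 : M2)) ∧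
    (∃ s : ℝ, C 3 * C 4 = s • (A2 : M2)) ∧ (∃ s : ℝ, C 5 * C 4 = s • (B2 : M2)) ∧
    ∃ s : ℝ, C 0 * C 1 * C 2 * C 3 * C 4 * C 5 = s • (1 : M2)

/-- package B -/
def S_B2 : Prop := ∀ C : M2, C.trace = 0 → C.det ≠ 0 →
  4 ≤ Module.finrank ℝ (spc (sym3 C))

/-- package B -/
def S_B3 : Prop := ∀ A : SL2, 2 < |(A : M2).trace| →
  Module.finrank ℝ (spc (sym3 (A : M2))) ≤ 2

/-- package B -/
def S_B4 : Prop := Module.finrank ℝ sp ≤ 10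

/-- package K: decomposition of `sp` under a hyperbolic element -/
def S_K5 : Prop := ∀ A : SL2, 2 < |(A : M2).trace| →
  ∃ w : M4, 0 < w.det ∧ w * sym3 (A : M2) = sym3 ((A⁻¹ : SL2) : M2) * w ∧
    ∀ X ∈ sp, ∃ Y H : M4,
      X = (Y - sym3 (A : M2) * Y * sym3 ((A⁻¹ : SL2) : M2)) + H ∧ H.trace = 0 ∧
      H * sym3 (A : M2) = sym3 (A : M2) * H ∧ w * H = -(H * w)

/-- package K: trivial commutant -/
def S_K6 : Prop := ∀ A B : SL2, 2 < |(A : M2).trace| → 2 < |(B : M2).trace| →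
  2 < |((A * B * A⁻¹ * B⁻¹ : SL2) : M2).trace| →
  ∀ X : M4, X * sym3 (A : M2) = sym3 (A : M2) * X → X * sym3 (B : M2) = sym3 (B : M2) * X →
    ∃ c : ℝ, X = c • (1 : M4)

/-- package E: the differential of a differentiable class function -/
def S_E : Prop := ∀ f : SL4 → ℝ, DiffClass f → ∃ l : SL4 → (M4 →ₗ[ℝ] ℝ),
  (∀ (u : ℝ → SL4) (V : M4), (∀ i j, HasDerivAt (fun t => (u t : M4) i j) (V i j) 0) →
    HasDerivAt (fun t => f (u t)) (l (u 0) V) 0) ∧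
  (∀ (g : SL4) (X : M4), l g (X * (g : M4) - (g : M4) * X) = 0) ∧
  (∀ (g g' : SL4) (h : M4), 0 < h.det → h * (g : M4) = (g' : M4) * h →
    ∀ X : M4, X.trace = 0 → l g' (h * (X * (g : M4)) * h⁻¹) = l g (X * (g : M4)))

/-- package F: every cocycle is tangent to a path of representations -/
def S_F : Prop := ∀ ρ : Surf →* SL4,
  (∀ X : M4, (∀ γ, X * (ρ γ : M4) = (ρ γ : M4) * X) → ∃ c : ℝ, X = c • (1 : M4)) →
  ∀ z : Surf → M4,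
    (∀ γ δ, z (γ * δ) = z γ + (ρ γ : M4) * z δ * ((ρ γ)⁻¹ : SL4)) →
    (∀ γ, (z γ).trace = 0) →
    ∃ R : ℝ → (Surf →* SL4), R 0 = ρ ∧
      ∀ γ i j, HasDerivAt (fun t => (R t γ : M4) i j) ((z γ * (ρ γ : M4)) i j) 0

/-- relations of the orbifold group: six involutions with product 1 -/
def rels6 : Set (FreeGroup (Fin 6)) :=
  {w | (∃ i, w = FreeGroup.of i * FreeGroup.of i) ∨
    w = FreeGroup.of 0 * FreeGroup.of 1 * FreeGroup.of 2 * FreeGroup.of 3 * FreeGroup.of 4 *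
      FreeGroup.of 5}

/-- the hyperelliptic orbifold group -/
abbrev Orb : Type := PresentedGroup rels6

/-- its generators -/
def cc (i : Fin 6) : Orb := PresentedGroup.of i

/-- package C (group theory): the hyperelliptic involution maps every simple curve to a
conjugate of itself or of its inverse -/
def S_C : Prop := ∃ j : Surf →* Orb,
  j (gen 0) = cc 0 * cc 1 ∧ j (gen 1) = cc 2 * cc 1 ∧ j (gen 2) = cc 3 * cc 4 ∧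
  j (gen 3) = cc 5 * cc 4 ∧
  ∀ γ, Simple γ → ∃ h : Surf, cc 0 * j γ * (cc 0)⁻¹ = j (h * γ * h⁻¹) ∨
    cc 0 * j γ * (cc 0)⁻¹ = j (h * γ⁻¹ * h⁻¹)

/-- package N: nontriviality of the generators -/
def S_N : Prop := gen 0 ≠ 1 ∧ gen 1 ≠ 1 ∧ gen 0 * gen 1 * (gen 0)⁻¹ * (gen 1)⁻¹ ≠ 1

/-- package D: an anti-invariant cocycle which is not a coboundary -/
def S_D : Prop := ∀ (ρ₀ : Surf →* SL2) (C : Fin 6 → M2),
  2 < |(ρ₀ (gen 0) : M2).trace| →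
  (∀ i, (C i).trace = 0 ∧ (C i).det ≠ 0) →
  (∃ s : ℝ, C 0 * C 1 = s • (ρ₀ (gen 0) : M2)) → (∃ s : ℝ, C 2 * C 1 = s • (ρ₀ (gen 1) : M2)) →
  (∃ s : ℝ, C 3 * C 4 = s • (ρ₀ (gen 2) : M2)) → (∃ s : ℝ, C 5 * C 4 = s • (ρ₀ (gen 3) : M2)) →
  (∃ s : ℝ, C 0 * C 1 * C 2 * C 3 * C 4 * C 5 = s • (1 : M2)) →
  ∃ w : Fin 6 → M4, (∀ i, w i ∈ spc (sym3 (C i))) ∧
    (∃ Φ : Orb →* Equiv.Perm M4, ∀ i X,
      Φ (cc i) X = -(sym3 (C i) * X * (sym3 (C i))⁻¹) + w i) ∧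
    ¬ ∃ X ∈ sp,
      (w 0 - sym3 (C 0) * w 1 * (sym3 (C 0))⁻¹ =
        X - sym3 (ρ₀ (gen 0) : M2) * X * (sym3 (ρ₀ (gen 0) : M2))⁻¹) ∧
      (w 2 - sym3 (C 2) * w 1 * (sym3 (C 2))⁻¹ =
        X - sym3 (ρ₀ (gen 1) : M2) * X * (sym3 (ρ₀ (gen 1) : M2))⁻¹) ∧
      (w 3 - sym3 (C 3) * w 4 * (sym3 (C 3))⁻¹ =
        X - sym3 (ρ₀ (gen 2) : M2) * X * (sym3 (ρ₀ (gen 2) : M2))⁻¹) ∧
      (w 5 - sym3 (C 5) * w 4 * (sym3 (C 5))⁻¹ =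
        X - sym3 (ρ₀ (gen 3) : M2) * X * (sym3 (ρ₀ (gen 3) : M2))⁻¹)

/-- the final theorem -/
def S_Final : Prop := ∀ ρ₀ : Surf →* SL2, (∀ γ : Surf, γ ≠ 1 → 2 < |(ρ₀ γ : M2).trace|) →
  ∃ (R : ℝ → (Surf →* SL4)) (z : Surf → M4), R 0 = sym3Hom.comp ρ₀ ∧
    (∀ γ i j, HasDerivAt (fun t => (R t γ : M4) i j) ((z γ * (R 0 γ : M4)) i j) 0) ∧
    (¬ ∃ X : M4, ∀ γ, z γ = X - (R 0 γ : M4) * X * ((R 0 γ)⁻¹ : SL4)) ∧
    ∀ f : SL4 → ℝ, DiffClass f → ∀ γ, Simple γ → HasDerivAt (fun t => f (R t γ)) 0 0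

end P8H97.HR
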